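import Pool.Agent.Helper68.ES.St3

/-!
# Project ES, module PAI: the pair bound
-/

set_option autoImplicit false

open MeasureTheory Set Filter Topology
open scoped ENNReal RealInnerProductSpace

namespace Pool.Agent.Helper72.ES

open Pool.Agent.Helper68.ES Pool.Agent.Helper68.EP Pool.Agent.Helper20.RG
open Pool.Agent.Helper20.RL (RQ Rich BM Fml Hit)
open Pool.Agent.Helper68.LM (Pl BB Bd Av HL ft fm DQ)

private theorem key (C₁ T lam : ℝ) (x : ℕ) (hC : 1 ≤ C₁)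
    (h : 2 * C₁ * (2 : ℝ) ^ T * (2 : ℝ) ^ (-(1 / C₁ * (x : ℝ))) < lam) :
    C₁ * ((2 : ℝ) ^ T / lam) ^ C₁ < (2 : ℝ) ^ x := by
  have hC0 : 0 < C₁ := by linarith
  have hT : (0 : ℝ) < (2 : ℝ) ^ T := Real.rpow_pos_of_pos (by norm_num) _
  have hX : (0 : ℝ) < (2 : ℝ) ^ (1 / C₁ * (x : ℝ)) := Real.rpow_pos_of_pos (by norm_num) _
  have hneg : (2 : ℝ) ^ (-(1 / C₁ * (x : ℝ))) = ((2 : ℝ) ^ (1 / C₁ * (x : ℝ)))⁻¹ :=
    Real.rpow_neg (by norm_num) _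
  have hlam : 0 < lam := lt_of_le_of_lt (by positivity) h
  have h1 : (2 : ℝ) ^ T / lam ≤ (2 : ℝ) ^ (1 / C₁ * (x : ℝ)) / (2 * C₁) := by
    rw [div_le_div_iff₀ hlam (by positivity)]
    rw [hneg] at h
    have h2 : 2 * C₁ * (2 : ℝ) ^ T < lam * (2 : ℝ) ^ (1 / C₁ * (x : ℝ)) := by
      have h3 := mul_lt_mul_of_pos_right h hX
      rw [mul_assoc, inv_mul_cancel₀ hX.ne', mul_one] at h3
      exact h3
    nlinarith
  have h2 : ((2 : ℝ) ^ T / lam) ^ C₁ ≤ ((2 : ℝ) ^ (1 / C₁ * (x : ℝ)) / (2 * C₁)) ^ C₁ :=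
    Real.rpow_le_rpow (by positivity) h1 hC0.le
  have h3 : ((2 : ℝ) ^ (1 / C₁ * (x : ℝ)) / (2 * C₁)) ^ C₁ = (2 : ℝ) ^ x / (2 * C₁) ^ C₁ := by
    rw [Real.div_rpow hX.le (by positivity), ← Real.rpow_mul (by norm_num : (0 : ℝ) ≤ 2)]
    congr 1
    have : 1 / C₁ * (x : ℝ) * C₁ = (x : ℝ) := by field_simp
    rw [this, Real.rpow_natCast]
  have h4 : 2 * C₁ ≤ (2 * C₁) ^ C₁ := by
    calc 2 * C₁ = (2 * C₁) ^ (1 : ℝ) := (Real.rpow_one _).symm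
      _ ≤ (2 * C₁) ^ C₁ := Real.rpow_le_rpow_of_exponent_le (by linarith) hC
  have hx : (0 : ℝ) < (2 : ℝ) ^ x := by positivity
  calc C₁ * ((2 : ℝ) ^ T / lam) ^ C₁ ≤ C₁ * ((2 : ℝ) ^ x / (2 * C₁) ^ C₁) := by
        rw [← h3]
        exact mul_le_mul_of_nonneg_left h2 hC0.le
    _ ≤ C₁ * ((2 : ℝ) ^ x / (2 * C₁)) := by
        apply mul_le_mul_of_nonneg_left _ hC0.le
        exact div_le_div_of_nonneg_left hx.le (by positivity) h4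
    _ = (2 : ℝ) ^ x / 2 := by field_simp
    _ < (2 : ℝ) ^ x := by linarith

private theorem pw (cw cu ρ l : ℝ≥0∞) (h : ¬ (l ≤ cw ∧ l ≤ cu)) :
    min cw ρ * min cu ρ ≤ l * (cw + cu) := by
  rw [not_and_or, not_le, not_le] at h
  rcases h with h | h
  · calc min cw ρ * min cu ρ ≤ l * cu :=
          mul_le_mul' ((min_le_left _ _).trans h.le) (min_le_left _ _)
      _ ≤ l * (cw + cu) := mul_le_mul' le_rfl le_add_self
  · calc min cw ρ * min cu ρ ≤ cw * l :=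
          mul_le_mul' (min_le_left _ _) ((min_le_left _ _).trans h.le)
      _ = l * cw := mul_comm _ _
      _ ≤ l * (cw + cu) := mul_le_mul' le_rfl le_self_add

private theorem split (cw cu : Pl → ℝ≥0∞) (hw : Measurable cw) (hu : Measurable cu) (ρ lam : ℝ)
    (hρ : 1 ≤ ρ)
    (hH : volume {z | ENNReal.ofReal lam ≤ cw z ∧ ENNReal.ofReal lam ≤ cu z} ≤
      ENNReal.ofReal lam * ((∫⁻ z, cw z) + ∫⁻ z, cu z)) :
    ∫⁻ z, min (cw z) (ENNReal.ofReal ρ) * min (cu z) (ENNReal.ofReal ρ) ≤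
      ENNReal.ofReal (2 * ρ ^ 2 * lam) * ((∫⁻ z, cw z) + ∫⁻ z, cu z) := by
  set H : Set Pl := {z | ENNReal.ofReal lam ≤ cw z ∧ ENNReal.ofReal lam ≤ cu z} with hHdef
  have hHm : MeasurableSet H :=
    (measurableSet_le measurable_const hw).inter (measurableSet_le measurable_const hu)
  set r : ℝ≥0∞ := ENNReal.ofReal ρ with hr
  set l : ℝ≥0∞ := ENNReal.ofReal lam with hl
  have hpt : ∀ z, min (cw z) r * min (cu z) r ≤
      H.indicator (fun _ => r * r) z + l * (cw z + cu z) := by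
    intro z
    by_cases hz : z ∈ H
    · rw [indicator_of_mem hz]
      exact (mul_le_mul' (min_le_right _ _) (min_le_right _ _)).trans le_self_add
    · rw [indicator_of_notMem hz, zero_add]
      exact pw _ _ _ _ hz
  have hr1 : 1 ≤ r * r := by
    have h1 : (1 : ℝ≥0∞) ≤ r := by
      rw [hr, ← ENNReal.ofReal_one]
      exact ENNReal.ofReal_le_ofReal hρ
    calc (1 : ℝ≥0∞) = 1 * 1 := (one_mul _).symm
      _ ≤ r * r := mul_le_mul' h1 h1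
  calc ∫⁻ z, min (cw z) r * min (cu z) r
      ≤ ∫⁻ z, (H.indicator (fun _ => r * r) z + l * (cw z + cu z)) := lintegral_mono hpt
    _ = r * r * volume H + l * ((∫⁻ z, cw z) + ∫⁻ z, cu z) := by
        have e1 : ∫⁻ z, l * (cw z + cu z) = l * ∫⁻ z, (cw z + cu z) :=
          lintegral_const_mul l (hw.add hu)
        rw [lintegral_add_left (measurable_const.indicator hHm), lintegral_indicator hHm,
          setLIntegral_const, e1, lintegral_add_left hw]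
    _ ≤ r * r * (l * ((∫⁻ z, cw z) + ∫⁻ z, cu z)) +
        r * r * (l * ((∫⁻ z, cw z) + ∫⁻ z, cu z)) := by
        refine add_le_add (mul_le_mul' le_rfl hH) ?_
        calc l * ((∫⁻ z, cw z) + ∫⁻ z, cu z)
            = 1 * (l * ((∫⁻ z, cw z) + ∫⁻ z, cu z)) := (one_mul _).symm
          _ ≤ _ := mul_le_mul' hr1 le_rfl
    _ = ENNReal.ofReal (2 * ρ ^ 2 * lam) * ((∫⁻ z, cw z) + ∫⁻ z, cu z) := by
        rw [ENNReal.ofReal_mul (by positivity), ENNReal.ofReal_mul (by norm_num),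
          ENNReal.ofReal_pow (by linarith), ENNReal.ofReal_ofNat]
        ring

theorem hPAI' (hSUP : StSUP) (hTWD : StTWD) (hTWN : StTWN) :
  ∀ p : ℝ, 1 < p → p < 2 → p ^ 2 + p = 3 → ∀ A CH : ℝ, 0 ≤ A → 1 ≤ CH → ∃ C η : ℝ, 1 ≤ C ∧ 0 < η ∧ η ≤ 1 ∧
    ∀ (e : ℝ) (R Y β : ℤ) (w u q₁ q₂ i₁ i₂ : ℕ) (J₁ J₂ : Finset ℕ) (sl₁ sl₂ : ℕ → ℝ) (fl₁ fl₂ : ℕ → ℕ)
    (D₁ D₂ al ρ : ℝ) (E : Set Pl) (ω₁ ω₂ : ℤ → ℕ → Pl → ℝ≥0∞), Cfg p e R Y β w q₁ i₁ → Cfg p e R Y β u q₂ i₂ →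
    w < u → 1 ≤ q₁ → 1 ≤ q₂ → Cls p A al w q₁ J₁ sl₁ → Chg CH E w q₁ J₁ sl₁ fl₁ D₁ (th i₁) (mb i₁ β) ω₁ →
    Cls p A al u q₂ J₂ sl₂ → Chg CH E u q₂ J₂ sl₂ fl₂ D₂ (th i₂) (mb i₂ β) ω₂ → 0 < D₁ → 0 < D₂ → BM E → 1 ≤ ρ →
    ∫⁻ z, min (cg p w J₁ ω₁ z) (ENNReal.ofReal ρ) * min (cg p u J₂ ω₂ z) (ENNReal.ofReal ρ) ≤
      ENNReal.ofReal (C * ρ ^ 2 * (2 : ℝ) ^ (C * sz R Y β) *
        ((2 : ℝ) ^ (-(η * w)) + (2 : ℝ) ^ (-(η * ((u : ℝ) - w))))) *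
        ((∫⁻ z, cg p w J₁ ω₁ z) + ∫⁻ z, cg p u J₂ ω₂ z) := by
  intro p hp1 hp2 hp3 A CH hA hCH
  obtain ⟨C₀, hC₀, hD⟩ := hTWD
  obtain ⟨C₁, hC₁, hN⟩ := hTWN p hp1 hp2 hp3 A CH C₀ hA hCH hC₀
  have hC₁0 : 0 < C₁ := by linarith
  refine ⟨4 * C₁, 1 / C₁, by linarith, by positivity, by rw [div_le_one hC₁0]; exact hC₁, ?_⟩
  intro e R Y β w u q₁ q₂ i₁ i₂ J₁ J₂ sl₁ sl₂ fl₁ fl₂ D₁ D₂ al ρ E ω₁ ω₂ hf₁ hf₂ hwu hq₁ hq₂ hc₁
    hg₁ hc₂ hg₂ hD₁ hD₂ hE hρ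
  have hth : ∀ i : ℕ, 0 < th i := by
    intro i
    unfold th
    positivity
  have hmb : ∀ i : ℕ, 0 < mb i β := by
    intro i
    unfold mb
    positivity
  obtain ⟨-, hs₁, hm₁, hfin₁⟩ :=
    hSUP p CH E w q₁ J₁ sl₁ fl₁ D₁ (th i₁) (mb i₁ β) ω₁ hg₁ hE hq₁ hD₁ (hth i₁) (hmb i₁)
  obtain ⟨-, -, hm₂, hfin₂⟩ :=
    hSUP p CH E u q₂ J₂ sl₂ fl₂ D₂ (th i₂) (mb i₂ β) ω₂ hg₂ hE hq₂ hD₂ (hth i₂) (hmb i₂)
  set cw : Pl → ℝ≥0∞ := cg p w J₁ ω₁ with hcw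
  set cu : Pl → ℝ≥0∞ := cg p u J₂ ω₂ with hcu
  set T : ℝ := sz R Y β with hT
  have hT0 : 0 ≤ T := by
    rw [hT]
    unfold sz
    positivity
  have h2T : (0 : ℝ) < (2 : ℝ) ^ T := Real.rpow_pos_of_pos (by norm_num) _
  set x₁ : ℝ := (2 : ℝ) ^ (-(1 / C₁ * (w : ℝ))) with hx₁
  set x₂ : ℝ := (2 : ℝ) ^ (-(1 / C₁ * ((u : ℝ) - w))) with hx₂
  have hx₁0 : 0 < x₁ := Real.rpow_pos_of_pos (by norm_num) _
  have hx₂0 : 0 < x₂ := Real.rpow_pos_of_pos (by norm_num) _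
  set lam : ℝ := 2 * C₁ * (2 : ℝ) ^ T * (x₁ + x₂) with hlam
  have hlam0 : 0 < lam := by positivity
  have hTT : (2 : ℝ) ^ T ≤ (2 : ℝ) ^ (4 * C₁ * T) := by
    apply Real.rpow_le_rpow_of_exponent_le (by norm_num)
    nlinarith
  have hconst : 2 * ρ ^ 2 * lam ≤ 4 * C₁ * ρ ^ 2 * (2 : ℝ) ^ (4 * C₁ * T) * (x₁ + x₂) := by
    have h1 : 2 * ρ ^ 2 * lam = 4 * C₁ * ρ ^ 2 * (x₁ + x₂) * (2 : ℝ) ^ T := by
      rw [hlam]
      ring
    have h2 : 4 * C₁ * ρ ^ 2 * (2 : ℝ) ^ (4 * C₁ * T) * (x₁ + x₂) =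
        4 * C₁ * ρ ^ 2 * (x₁ + x₂) * (2 : ℝ) ^ (4 * C₁ * T) := by ring
    rw [h1, h2]
    exact mul_le_mul_of_nonneg_left hTT (by positivity)
  by_cases hl1 : lam ≤ 1
  · have hk₁ : C₁ * ((2 : ℝ) ^ T / lam) ^ C₁ < (2 : ℝ) ^ w := by
      apply key C₁ T lam w hC₁
      show 2 * C₁ * (2 : ℝ) ^ T * x₁ < lam
      rw [hlam]
      exact mul_lt_mul_of_pos_left (by linarith) (by positivity)
    have hk₂ : C₁ * ((2 : ℝ) ^ T / lam) ^ C₁ < (2 : ℝ) ^ (u - w) := by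
      apply key C₁ T lam (u - w) hC₁
      have hcast : (((u - w : ℕ) : ℕ) : ℝ) = (u : ℝ) - w := by
        rw [Nat.cast_sub hwu.le]
      rw [hcast]
      show 2 * C₁ * (2 : ℝ) ^ T * x₂ < lam
      rw [hlam]
      exact mul_lt_mul_of_pos_left (by linarith) (by positivity)
    obtain ⟨r, M, d₀, κ₀, hNu⟩ := hN e R Y β w u q₁ q₂ i₁ i₂ lam hf₁ hf₂ hwu hlam0 hl1 hk₁ hk₂
    have hH : volume {z | ENNReal.ofReal lam ≤ cw z ∧ ENNReal.ofReal lam ≤ cu z} ≤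
        ENNReal.ofReal lam * ((∫⁻ z, cw z) + ∫⁻ z, cu z) := by
      by_contra hcon
      rw [not_le] at hcon
      set H : Set Pl := {z | ENNReal.ofReal lam ≤ cw z ∧ ENNReal.ofReal lam ≤ cu z} with hHdef
      have hHm : MeasurableSet H :=
        (measurableSet_le measurable_const hm₁).inter (measurableSet_le measurable_const hm₂)
      have hlp : 0 < ENNReal.ofReal lam := ENNReal.ofReal_pos.2 hlam0
      have hHE : H ⊆ E := by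
        intro z hz
        refine (hs₁ z ?_).1
        intro h0
        have h1 : ENNReal.ofReal lam ≤ cw z := hz.1
        rw [h0] at h1
        exact absurd h1 (not_le.2 hlp)
      have hinv : ∀ I : ℝ≥0∞, ENNReal.ofReal lam * I ≤ volume H →
          I ≤ ENNReal.ofReal (1 / lam) * volume H := by
        intro I hI
        have h1 : ENNReal.ofReal (1 / lam) * ENNReal.ofReal lam = 1 := by
          rw [← ENNReal.ofReal_mul (by positivity), one_div_mul_cancel hlam0.ne',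
            ENNReal.ofReal_one]
        calc I = ENNReal.ofReal (1 / lam) * (ENNReal.ofReal lam * I) := by
              rw [← mul_assoc, h1, one_mul]
          _ ≤ _ := mul_le_mul' le_rfl hI
      exact hD C₀ p A CH E H w u q₁ q₂ r J₁ J₂ sl₁ sl₂ fl₁ fl₂ D₁ D₂ (th i₁) (mb i₁ β) (th i₂)
        (mb i₂ β) al lam M d₀ κ₀ ω₁ ω₂ le_rfl hp1 hp2 hNu hc₁ hg₁ hc₂ hg₂ hD₁ hD₂ hE
        ⟨hHm, hE.2.subset hHE⟩ hHE (lt_of_le_of_lt zero_le hcon) (fun z hz => hz)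
        (hinv _ ((mul_le_mul' le_rfl le_self_add).trans hcon.le))
        (hinv _ ((mul_le_mul' le_rfl le_add_self).trans hcon.le))
    refine (split cw cu hm₁ hm₂ ρ lam hρ hH).trans ?_
    exact mul_le_mul' (ENNReal.ofReal_le_ofReal hconst) le_rfl
  · rw [not_le] at hl1
    calc ∫⁻ z, min (cw z) (ENNReal.ofReal ρ) * min (cu z) (ENNReal.ofReal ρ)
        ≤ ∫⁻ z, ENNReal.ofReal ρ * cw z := by
          apply lintegral_mono
          intro z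
          show min (cw z) (ENNReal.ofReal ρ) * min (cu z) (ENNReal.ofReal ρ) ≤
            ENNReal.ofReal ρ * cw z
          rw [mul_comm]
          exact mul_le_mul' (min_le_right _ _) (min_le_left _ _)
      _ = ENNReal.ofReal ρ * ∫⁻ z, cw z := lintegral_const_mul _ hm₁
      _ ≤ ENNReal.ofReal (4 * C₁ * ρ ^ 2 * (2 : ℝ) ^ (4 * C₁ * T) * (x₁ + x₂)) *
          ((∫⁻ z, cw z) + ∫⁻ z, cu z) := by
          refine mul_le_mul' (ENNReal.ofReal_le_ofReal (le_trans ?_ hconst)) le_self_add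
          nlinarith [mul_pos (show (0 : ℝ) < ρ ^ 2 by positivity) hlam0]

private theorem weaker (cw : Pl → ℝ≥0∞) (I : ℝ≥0∞) :
    (∫⁻ z, cw z) + I ≤ ∫⁻ z, (cw z + I) := by
  have h1 : I ≤ ∫⁻ _ : Pl, I := by
    rw [lintegral_const, measure_univ_of_isAddLeftInvariant]
    by_cases hI : I = 0
    · rw [hI]
      exact zero_le
    · rw [ENNReal.mul_top hI]
      exact le_top
  exact (add_le_add le_rfl h1).trans (le_lintegral_add _ _)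

theorem hPAI (hSUP : StSUP) (hTWD : StTWD) (hTWN : StTWN) : StPAI := by
  intro p hp1 hp2 hp3 A CH hA hCH
  obtain ⟨C, η, hC, hη, hη1, h⟩ := hPAI' hSUP hTWD hTWN p hp1 hp2 hp3 A CH hA hCH
  refine ⟨C, η, hC, hη, hη1, ?_⟩
  intro e R Y β w u q₁ q₂ i₁ i₂ J₁ J₂ sl₁ sl₂ fl₁ fl₂ D₁ D₂ al ρ E ω₁ ω₂ hf₁ hf₂ hwu hq₁ hq₂ hc₁
    hg₁ hc₂ hg₂ hD₁ hD₂ hE hρ
  refine (h e R Y β w u q₁ q₂ i₁ i₂ J₁ J₂ sl₁ sl₂ fl₁ fl₂ D₁ D₂ al ρ E ω₁ ω₂ hf₁ hf₂ hwu hq₁ hq₂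
    hc₁ hg₁ hc₂ hg₂ hD₁ hD₂ hE hρ).trans ?_
  refine mul_le_mul' le_rfl ?_
  first
    | exact le_rfl
    | exact weaker _ _

end Pool.Agent.Helper72.ES
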