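import Pool.Agent.Helper85.ES.StI1

/-!
# Project ES, part I, module OWD: a rich cell with `a ≥ 0` has width less than one
-/

set_option autoImplicit false

open MeasureTheory Set Filter Topology
open scoped ENNReal RealInnerProductSpace

namespace Pool.Agent.Helper72.ES

open Pool.Agent.Helper85.ES Pool.Agent.Helper20.RG Pool.Agent.Helper20.RL
open Pool.Agent.Helper68.LM (Pl BB Bd Av HL ft fm DQ)

private theorem in_square (hLGR : Pool.Agent.Helper20.RL.StLGR) (F : Set Pl) (s : ℝ) (a : ℤ)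
    (W : ℕ) (D : ℝ) (y : Pl) (hs : |s| ≤ 1) (hC : Ctl D F) (ha : a ≤ W) :
    volume (F ∩ RQ s a W y) ≤ ENNReal.ofReal (D * (4 : ℝ) ^ (W + 1)) := by
  have hsub : RQ s a (W : ℤ) y ⊆ Sq y ((2 : ℝ) ^ (W + 1)) := by
    intro z hz
    obtain ⟨h0, -, h1⟩ := hLGR.2.2.2.1 s a W y z hs hz
    have ha' : (2 : ℝ) ^ a ≤ (2 : ℝ) ^ W := by
      rw [← zpow_natCast]
      exact zpow_le_zpow_right₀ (by norm_num) ha
    have hw : (2 : ℝ) ^ ((W : ℕ) : ℤ) = (2 : ℝ) ^ W := zpow_natCast _ _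
    have h2 : (2 : ℝ) ^ (W + 1) = 2 * (2 : ℝ) ^ W := by rw [pow_succ]; ring
    have h3 : (0 : ℝ) < (2 : ℝ) ^ W := by positivity
    rw [hw] at h1
    exact ⟨by linarith, by linarith⟩
  exact (measure_mono (inter_subset_inter_right F hsub)).trans (hC y (W + 1))

private theorem floor_half (t : ℝ) (a : ℤ) :
    ⌊t / (2 : ℝ) ^ a⌋ = 2 * ⌊t / (2 : ℝ) ^ (a + 1)⌋ ∨
      ⌊t / (2 : ℝ) ^ a⌋ = 2 * ⌊t / (2 : ℝ) ^ (a + 1)⌋ + 1 := by
  have h2 : (0 : ℝ) < (2 : ℝ) ^ a := by positivity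
  have e : t / (2 : ℝ) ^ a = 2 * (t / (2 : ℝ) ^ (a + 1)) := by
    rw [zpow_add₀ (by norm_num), zpow_one]
    field_simp
  rw [e]
  set x := t / (2 : ℝ) ^ (a + 1) with hx
  have h3 := Int.floor_le x
  have h4 := Int.lt_floor_add_one x
  have h5 : 2 * ⌊x⌋ ≤ ⌊2 * x⌋ := by
    apply Int.le_floor.2
    push_cast
    linarith
  have h6 : ⌊2 * x⌋ < 2 * ⌊x⌋ + 2 := by
    apply Int.floor_lt.2
    push_cast
    linarith
  omega

private theorem halves (s : ℝ) (a w : ℤ) (y : Pl) :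
    ∃ y' y'' : Pl, RQ s (a + 1) w y ⊆ RQ s a w y' ∪ RQ s a w y'' := by
  set P : ℤ → Set Pl := fun N => {z | ⌊z 0 / (2 : ℝ) ^ a⌋ = N ∧
    ⌊pr s z / (2 : ℝ) ^ w⌋ = ⌊pr s y / (2 : ℝ) ^ w⌋} with hP
  have hcell : ∀ N : ℤ, ∃ y' : Pl, P N ⊆ RQ s a w y' := by
    intro N
    by_cases hne : (P N).Nonempty
    · obtain ⟨y', hy'⟩ := hne
      refine ⟨y', fun z hz => ?_⟩
      exact ⟨hz.1.trans hy'.1.symm, hz.2.trans hy'.2.symm⟩
    · rw [not_nonempty_iff_eq_empty] at hne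
      exact ⟨y, by rw [hne]; exact empty_subset _⟩
  obtain ⟨y', h'⟩ := hcell (2 * ⌊y 0 / (2 : ℝ) ^ (a + 1)⌋)
  obtain ⟨y'', h''⟩ := hcell (2 * ⌊y 0 / (2 : ℝ) ^ (a + 1)⌋ + 1)
  refine ⟨y', y'', fun z hz => ?_⟩
  have h1 := floor_half (z 0) a
  rw [hz.1] at h1
  rcases h1 with h1 | h1
  · exact Or.inl (h' ⟨h1, hz.2⟩)
  · exact Or.inr (h'' ⟨h1, hz.2⟩)

private theorem cell_bound (hLGR : Pool.Agent.Helper20.RL.StLGR) (F : Set Pl) (s : ℝ)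
    (W : ℕ) (D : ℝ) (hs : |s| ≤ 1) (hC : Ctl D F) : ∀ (k : ℕ) (y : Pl),
    volume (F ∩ RQ s ((W : ℤ) + k) W y) ≤ 2 ^ k * ENNReal.ofReal (D * (4 : ℝ) ^ (W + 1)) := by
  intro k
  induction k with
  | zero =>
    intro y
    have h := in_square hLGR F s ((W : ℤ) + ((0 : ℕ) : ℤ)) W D y hs hC (by simp)
    simpa using h
  | succ k ih =>
    intro y
    obtain ⟨y', y'', h⟩ := halves s ((W : ℤ) + k) W y
    have e : ((W : ℤ) + ((k + 1 : ℕ) : ℤ)) = (W : ℤ) + k + 1 := by push_cast; ring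
    rw [e]
    calc volume (F ∩ RQ s ((W : ℤ) + k + 1) W y)
        ≤ volume ((F ∩ RQ s ((W : ℤ) + k) W y') ∪ (F ∩ RQ s ((W : ℤ) + k) W y'')) := by
          apply measure_mono
          rw [← inter_union_distrib_left]
          exact inter_subset_inter_right F h
      _ ≤ volume (F ∩ RQ s ((W : ℤ) + k) W y') + volume (F ∩ RQ s ((W : ℤ) + k) W y'') :=
          measure_union_le _ _
      _ ≤ 2 ^ k * ENNReal.ofReal (D * (4 : ℝ) ^ (W + 1)) +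
          2 ^ k * ENNReal.ofReal (D * (4 : ℝ) ^ (W + 1)) := add_le_add (ih y') (ih y'')
      _ = 2 ^ (k + 1) * ENNReal.ofReal (D * (4 : ℝ) ^ (W + 1)) := by
          rw [pow_succ]; ring

theorem hOWD (hLGR : Pool.Agent.Helper20.RL.StLGR) : Pool.Agent.Helper85.ES.StOWD := by
  intro F s a w D η y hs _ hC hD hη hw0 hwa hR
  obtain ⟨W, rfl⟩ : ∃ W : ℕ, w = (W : ℤ) := ⟨w.toNat, by omega⟩
  have hR' : ENNReal.ofReal (η * (2 : ℝ) ^ (a + (W : ℤ))) ≤ volume (F ∩ RQ s a W y) := hR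
  have h4 : (0 : ℝ) < (4 : ℝ) ^ (W + 1) := by positivity
  have h2W : (0 : ℝ) < (2 : ℝ) ^ W := by positivity
  have e4 : (4 : ℝ) ^ (W + 1) = 4 * ((2 : ℝ) ^ W * (2 : ℝ) ^ W) := by
    rw [pow_succ, show (4 : ℝ) = 2 * 2 by norm_num, mul_pow]
    ring
  by_cases hc : (W : ℤ) ≤ a
  · obtain ⟨k, rfl⟩ : ∃ k : ℕ, a = (W : ℤ) + k := ⟨(a - W).toNat, by omega⟩
    have h1 := hR'.trans (cell_bound hLGR F s W D hs hC k y)
    have h2 : (2 : ℝ≥0∞) ^ k * ENNReal.ofReal (D * (4 : ℝ) ^ (W + 1)) =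
        ENNReal.ofReal ((2 : ℝ) ^ k * (D * (4 : ℝ) ^ (W + 1))) := by
      rw [ENNReal.ofReal_mul (p := (2 : ℝ) ^ k) (by positivity),
        ENNReal.ofReal_pow (p := (2 : ℝ)) (by norm_num), ENNReal.ofReal_ofNat]
    rw [h2] at h1
    have h3 := (ENNReal.ofReal_le_ofReal_iff (by positivity)).1 h1
    have e1 : (2 : ℝ) ^ ((W : ℤ) + (k : ℤ) + (W : ℤ)) = (2 : ℝ) ^ W * (2 : ℝ) ^ k * (2 : ℝ) ^ W := by
      rw [zpow_add₀ (by norm_num), zpow_add₀ (by norm_num), zpow_natCast, zpow_natCast]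
    rw [e1, e4] at h3
    have h2k : (0 : ℝ) < (2 : ℝ) ^ k := by positivity
    have h5 : η * ((2 : ℝ) ^ W * (2 : ℝ) ^ k * (2 : ℝ) ^ W) ≤
        (4 * D) * ((2 : ℝ) ^ W * (2 : ℝ) ^ k * (2 : ℝ) ^ W) := by
      calc η * ((2 : ℝ) ^ W * (2 : ℝ) ^ k * (2 : ℝ) ^ W)
          ≤ (2 : ℝ) ^ k * (D * (4 * ((2 : ℝ) ^ W * (2 : ℝ) ^ W))) := h3
        _ = _ := by ring
    have h6 := le_of_mul_le_mul_right h5 (by positivity)
    linarith
  · have ha : a = (W : ℤ) - 1 := by omega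
    subst ha
    have h1 := hR'.trans (in_square hLGR F s ((W : ℤ) - 1) W D y hs hC (by omega))
    have h3 := (ENNReal.ofReal_le_ofReal_iff (by positivity)).1 h1
    have e1 : (2 : ℝ) ^ ((W : ℤ) - 1 + (W : ℤ)) = (2 : ℝ) ^ W * (2 : ℝ) ^ W / 2 := by
      rw [zpow_add₀ (by norm_num), zpow_sub₀ (by norm_num), zpow_natCast, zpow_one]
      ring
    rw [e1, e4] at h3
    have h5 : η * ((2 : ℝ) ^ W * (2 : ℝ) ^ W) ≤ (8 * D) * ((2 : ℝ) ^ W * (2 : ℝ) ^ W) := by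
      nlinarith
    exact le_of_mul_le_mul_right h5 (by positivity)

end Pool.Agent.Helper72.ES
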